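import Mathlib

/-! Ranks of integer matrices over the reals and modulo primes. -/

set_option autoImplicit false

namespace Pool.Agent.W290.SG

open Module Finset

/-- the rank of an integer matrix modulo `p` is at most its rank over the reals -/
theorem rank_modp (p : ℕ) [Fact p.Prime] {m n : Type} [Fintype m] [Fintype n] (A : Matrix m n ℤ) :
    (A.map (Int.cast : ℤ → ZMod p)).rank ≤ (A.map (Int.cast : ℤ → ℝ)).rank := by
  classical
  set B := A.map (Int.cast : ℤ → ZMod p) with hB
  set r := finrank (ZMod p) (LinearMap.range B.mulVecLin) with hr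
  have hrank : B.rank = r := rfl
  let b := Module.finBasis (ZMod p) (LinearMap.range B.mulVecLin)
  have hq : ∀ j : Fin r, ∃ q : n → ZMod p, B.mulVecLin q = (b j : m → ZMod p) := fun j => (b j).2
  choose q hq using hq
  have hli : LinearIndependent (ZMod p) (fun j : Fin r => (b j : m → ZMod p)) :=
    b.linearIndependent.map' (Submodule.subtype _) (Submodule.ker_subtype _)
  let f : (Fin r → ZMod p) →ₗ[ZMod p] (m → ZMod p) :=
    Fintype.linearCombination (ZMod p) (fun j : Fin r => (b j : m → ZMod p))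
  have hf : LinearMap.ker f = ⊥ := by
    rw [LinearMap.ker_eq_bot]
    exact linearIndependent_iff_injective_fintypeLinearCombination.1 hli
  obtain ⟨g, hg⟩ := LinearMap.exists_leftInverse_of_injective f hf
  have hgb : ∀ j : Fin r, g (b j : m → ZMod p) = Pi.single j 1 := by
    intro j
    have h1 : f (Pi.single j 1) = (b j : m → ZMod p) := by
      simp [f, Fintype.linearCombination_apply_single]
    rw [← h1]
    exact congrArg (fun h => h (Pi.single j 1)) hg
  let P : Matrix (Fin r) m (ZMod p) := LinearMap.toMatrix' g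
  let Q : Matrix n (Fin r) (ZMod p) := Matrix.of fun i j => q j i
  have hPQ : P * B * Q = 1 := by
    ext i j
    have h1 : (P * B * Q) i j = (P.mulVec (B.mulVec (q j))) i := by
      rw [Matrix.mul_assoc]
      simp only [Matrix.mul_apply, Matrix.mulVec, dotProduct, Q, Matrix.of_apply]
    have h2 : B.mulVec (q j) = (b j : m → ZMod p) := hq j
    have h3 : P.mulVec (b j : m → ZMod p) = g (b j) := by
      exact LinearMap.toMatrix'_mulVec g _
    rw [h1, h2, h3, hgb j, Matrix.one_apply, Pi.single_apply]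
  let P' : Matrix (Fin r) m ℤ := P.map (fun z => ((z.val : ℕ) : ℤ))
  let Q' : Matrix n (Fin r) ℤ := Q.map (fun z => ((z.val : ℕ) : ℤ))
  let D : Matrix (Fin r) (Fin r) ℤ := P' * A * Q'
  have hD3 : D.map (Int.castRingHom (ZMod p)) = 1 := by
    have e1 : P'.map (Int.castRingHom (ZMod p)) = P := by
      ext i j; simp [P']
    have e2 : Q'.map (Int.castRingHom (ZMod p)) = Q := by
      ext i j; simp [Q']
    have e3 : A.map (Int.castRingHom (ZMod p)) = B := rfl
    simp only [D]
    rw [Matrix.map_mul, Matrix.map_mul, e1, e2, e3, hPQ]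
  have hdet : D.det ≠ 0 := by
    intro h0
    have h1 := (Int.castRingHom (ZMod p)).map_det D
    rw [RingHom.mapMatrix_apply, hD3, h0, map_zero, Matrix.det_one] at h1
    exact zero_ne_one h1
  have hdetR : (D.map (Int.castRingHom ℝ)).det ≠ 0 := by
    have h1 := (Int.castRingHom ℝ).map_det D
    rw [RingHom.mapMatrix_apply] at h1
    rw [← h1]
    simpa using hdet
  have hrD : (D.map (Int.castRingHom ℝ)).rank = r := by
    rw [Matrix.rank_of_det_ne_zero hdetR, Fintype.card_fin]
  have hmul : D.map (Int.castRingHom ℝ) = P'.map (Int.castRingHom ℝ) *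
      A.map (Int.castRingHom ℝ) * Q'.map (Int.castRingHom ℝ) := by
    simp only [D]
    rw [Matrix.map_mul, Matrix.map_mul]
  rw [hrank, ← hrD, hmul]
  exact (Matrix.rank_mul_le_left _ _).trans (Matrix.rank_mul_le_right _ _)

theorem rowsel {m n : Type} [Fintype m] [Fintype n] (A : Matrix m n ℝ) (r : ℕ) (hr : A.rank = r) :
    ∃ ro : Fin r → m, LinearIndependent ℝ (fun i => A.row (ro i)) := by
  rw [A.rank_eq_finrank_span_row] at hr
  subst hr
  obtain ⟨f, hf1, -, hf2⟩ := Submodule.exists_fun_fin_finrank_span_eq ℝ (Set.range A.row)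
  choose ro hro using hf1
  refine ⟨ro, ?_⟩
  have h1 : (fun i => A.row (ro i)) = f := funext hro
  rw [h1]
  exact hf2

theorem minor {m n : Type} [Fintype m] [Fintype n] (A : Matrix m n ℝ) (r : ℕ) (hr : A.rank = r) :
    ∃ (ro : Fin r → m) (co : Fin r → n), (A.submatrix ro co).det ≠ 0 := by
  obtain ⟨ro, hro⟩ := rowsel A r hr
  have hB : (A.submatrix ro id).rank = r := by
    have h := LinearIndependent.rank_matrix (M := A.submatrix ro id) hro
    rwa [Fintype.card_fin] at h
  have hB' : (A.submatrix ro id).transpose.rank = r := by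
    rw [Matrix.rank_transpose, hB]
  obtain ⟨co, hco⟩ := rowsel _ r hB'
  refine ⟨ro, co, ?_⟩
  have h1 : LinearIndependent ℝ (A.submatrix ro co).transpose.row := hco
  have h2 := Matrix.linearIndependent_rows_iff_isUnit.1 h1
  have h3 := (Matrix.isUnit_iff_isUnit_det _).1 h2
  rw [Matrix.det_transpose] at h3
  exact h3.ne_zero

theorem rank_large {m n : Type} [Fintype m] [Fintype n] (A : Matrix m n ℤ) :
    ∃ P0 : ℕ, ∀ (p : ℕ) [Fact p.Prime], P0 ≤ p →
      (A.map (Int.cast : ℤ → ℝ)).rank ≤ (A.map (Int.cast : ℤ → ZMod p)).rank := by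
  obtain ⟨ro, co, h⟩ := minor (A.map (Int.cast : ℤ → ℝ)) _ rfl
  set δ : ℤ := (A.submatrix ro co).det with hδ
  have h1 : ((δ : ℤ) : ℝ) = ((A.map (Int.cast : ℤ → ℝ)).submatrix ro co).det := by
    exact (Int.castRingHom ℝ).map_det (A.submatrix ro co)
  have hδ0 : δ ≠ 0 := by
    intro h0
    rw [h0, Int.cast_zero] at h1
    exact h h1.symm
  refine ⟨δ.natAbs + 1, ?_⟩
  intro p hp hle
  have h2 : ((δ : ℤ) : ZMod p) = ((A.map (Int.cast : ℤ → ZMod p)).submatrix ro co).det := by
    exact (Int.castRingHom (ZMod p)).map_det (A.submatrix ro co)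
  have h3 : ((δ : ℤ) : ZMod p) ≠ 0 := by
    rw [Ne, ZMod.intCast_zmod_eq_zero_iff_dvd]
    intro hd
    have h4 : p ∣ δ.natAbs := Int.natCast_dvd.1 hd
    have h5 := Nat.le_of_dvd (Int.natAbs_pos.2 hδ0) h4
    omega
  rw [h2] at h3
  have h4 := Matrix.rank_of_det_ne_zero h3
  rw [Fintype.card_fin] at h4
  calc (A.map (Int.cast : ℤ → ℝ)).rank = _ := h4.symm
    _ ≤ _ := Matrix.rank_submatrix_le _ _ _

end Pool.Agent.W290.SG
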